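import Pool.Agent.Helper72.K3Good

/-!
Answer to Q2: for `n ≥ 2`, `g(K_3, n) = e_2(n)` holds exactly when `n = 2` or `n = 3`.
-/

open Pool.Agent.Helper72.K3Good in
/-- For `n ≥ 2`, the equality `g(K_3, n) = e_2(n)` holds if and only if `n ∈ {2, 3}`. -/
theorem Pool.Agent.Results.MP_0fcc2a_co.Q2EqualityE2.result :
    {n : ℕ | 2 ≤ n ∧ gK3 n = e2 n} = {2, 3} :=
  q2_main
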